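import Pool.Agent.V11120.NO.Near

/-!
# A near-optimal 1-plane graph whose underlying graph is not maximal 1-planar
-/

set_option autoImplicit false
set_option maxRecDepth 100000

namespace Pool.Agent.Results.MP_072d80_co.NotMaximal

open TH482.HT Pool.Agent.V11120.NO

theorem result : ∃ (G : SimpleGraph (Fin 8)) (𝒟 : Drawing G) (u v : Fin 8), NearOptimal 𝒟 ∧
    u ≠ v ∧ ¬ G.Adj u v ∧ ∃ 𝒟' : Drawing (G ⊔ SimpleGraph.edge u v), OnePlane 𝒟' :=
  ⟨G8, DA, 1, 3, near, by decide +kernel, by decide +kernel, DB, onePlaneB⟩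

end Pool.Agent.Results.MP_072d80_co.NotMaximal
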